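import Pool.Agent.H70.EP.Targets

/-!
# FI3: the theorem
-/

set_option autoImplicit false

namespace Pool.Agent.H30.EP

open Finset Pool.Agent.H6.NB Pool.Agent.H70.OQ Pool.Agent.H70.EH Pool.Agent.H70.EI
  Pool.Agent.H70.EP

theorem fi3 (h1 : T_EX3) (h2 : T_DC3) (h3 : Pool.Agent.H70.EH.T_CMP)
    (h4 : Pool.Agent.H70.EH.T_YEX) (h5 : Pool.Agent.H6.NB.T_UNI) : T_FI3 := by
  intro V U
  obtain ⟨prog, hprog, hU⟩ := h5 U
  obtain ⟨hD1, hD2⟩ := h2 V prog hprog
  obtain ⟨O, hO⟩ := h3 ((ℕ × List Bool) ⊕ List Bool)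
    (fun i O => Sum.elim (fun p => fine V O p)
      (fun s => (O (false :: s) = true ↔ acc prog s O)) i)
    (by
      rintro (p | s)
      · exact hD1 p
      · exact hD2 s)
    (by
      classical
      intro E
      obtain ⟨O, hs, hf⟩ := h1 V prog hprog
        (E.preimage Sum.inl Sum.inl_injective.injOn)
      refine ⟨O, ?_⟩
      rintro (p | s) hi
      · exact hf p (by simpa using hi)
      · exact hs s)
  refine ⟨O, ?_, ?_⟩
  · intro i x
    classical
    have h := hO (.inl (i, x))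
    have h' := h4 O (home (V i) i x) _ h
    exact ⟨fun hx => h'.1 (decide_eq_true hx), fun hx => h'.2 (decide_eq_false hx)⟩
  · intro i x
    have h := hO (.inr (inst (U i).c i x))
    exact (hU i x O).trans h.symm

end Pool.Agent.H30.EP
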